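import Pool.Agent.K1H72.RB.Red

/-!
# The unweighted red-blue cut problem in undirected graphs is NP-complete

The reduction is from the clique problem.  Let `G` be a graph with `N` vertices.  Add vertices `s`
and `t`, a blue edge from `s` to each vertex of `G`, and `2 N - deg v` red paths of length two from
each vertex `v` of `G` to `t`; the edges of `G` are red.  A cut with the set `A` of vertices of `G`
on the side of `s` contains `N - |A|` blue edges, and at least `2 N |A| - 2 e(A)` red edges, where
`e(A)` is the number of the edges of `G` inside `A` (with equality for a suitable cut).  If at most
`N - k` blue and `2 N k - k (k - 1)` red edges are allowed then `A` must be a clique with `k`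
vertices.
-/

set_option autoImplicit false

namespace Pool.Agent.Results.MP_ad21dd_lc.UnweightedNPComplete

open Pool.Agent.NPC Pool.Agent.NPC.K1H72RB

/-- **The unweighted red-blue `s`-`t` cut problem in undirected simple graphs is NP-complete.** -/
theorem result : InNPP RedBlueCut ∧ NPHardP RedBlueCut :=
  ⟨inNPP_redBlueCut, hardI_redBlueCut.toNPHardP⟩

end Pool.Agent.Results.MP_ad21dd_lc.UnweightedNPComplete
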